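import Pool.Agent.R632.VRC.Two3

/-! Let `G₁` and `G₂` be residually amenable groups with a common virtually cyclic subgroup `G₀`
which is a virtual retract of both. Then the amalgamated free product of `G₁` and `G₂` over `G₀` is
residually amenable. -/

set_option linter.unusedSectionVars false
set_option linter.dupNamespace false

namespace Pool.Agent.Results.MP_71554c_al.ResidualAmenability

universe u

/-- A discrete group is amenable if there is a left invariant finitely additive probability measure
on the set of all its subsets. -/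
def IsAmenable (G : Type u) [Group G] : Prop :=
  ∃ m : Set G → ℝ, (∀ A, 0 ≤ m A) ∧ m Set.univ = 1 ∧
    (∀ A B, Disjoint A B → m (A ∪ B) = m A + m B) ∧
    ∀ (g : G) (A : Set G), m ((fun x => g * x) '' A) = m A

/-- A group is residually amenable if every nontrivial element has nontrivial image under some
homomorphism to an amenable group. -/
def IsResiduallyAmenable (G : Type u) [Group G] : Prop :=
  ∀ g : G, g ≠ 1 → ∃ (A : Type u) (_ : Group A) (φ : G →* A), IsAmenable A ∧ φ g ≠ 1

/-- `H` is a virtual retract of `G`: some subgroup `K` of finite index in `G` contains `H`, and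
there is a homomorphism from `K` to `H` whose restriction to `H` is the identity. -/
def IsVirtualRetract {G : Type u} [Group G] (H : Subgroup G) : Prop :=
  ∃ K : Subgroup G, K.FiniteIndex ∧ ∃ hHK : H ≤ K, ∃ r : K →* H,
    ∀ h : H, r ⟨(h : G), hHK h.2⟩ = h

/-- A group is virtually cyclic if it has a cyclic subgroup of finite index. -/
def IsVirtuallyCyclic (G : Type u) [Group G] : Prop :=
  ∃ c : G, (Subgroup.zpowers c).FiniteIndex

section amalgam

variable {G₀ G₁ G₂ : Type u} [Group G₀] [Group G₁] [Group G₂] (a : G₀ →* G₁) (b : G₀ →* G₂)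

/-- The normal closure, in the free product of `G₁` and `G₂`, of the elements `a g * (b g)⁻¹` with
`g` in `G₀`. -/
def relators : Subgroup (Monoid.Coprod G₁ G₂) :=
  Subgroup.normalClosure (Set.range fun g : G₀ =>
    (Monoid.Coprod.inl (a g) : Monoid.Coprod G₁ G₂) * (Monoid.Coprod.inr (b g))⁻¹)

instance : (relators a b).Normal := Subgroup.normalClosure_normal

/-- The amalgamated free product of `G₁` and `G₂` over `G₀`, with respect to the embeddings `a` and
`b`: the quotient of the free product in which `a g` and `b g` are identified for all `g`. -/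
abbrev AmalgamatedProduct : Type u := Monoid.Coprod G₁ G₂ ⧸ relators a b

end amalgam

lemma toRA {G : Type u} [Group G] (h : IsResiduallyAmenable G) : Pool.Agent.R632.VRC.RA G := by
  intro g hg
  obtain ⟨A, _, φ, hA, hφ⟩ := h g hg
  exact ⟨A, _, φ, Pool.Agent.R632.VRC.fol_of_amen hA, hφ⟩

lemma ofRA {G : Type u} [Group G] (h : Pool.Agent.R632.VRC.RA G) : IsResiduallyAmenable G := by
  intro g hg
  obtain ⟨A, _, φ, hA, hφ⟩ := h g hg
  exact ⟨A, _, φ, Pool.Agent.R632.VRC.amen_of_fol hA, hφ⟩

/-- Amalgams of residually amenable groups over a virtually cyclic group that is a virtual retract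
of both factors are residually amenable. -/
theorem result {G₀ G₁ G₂ : Type u} [Group G₀] [Group G₁] [Group G₂] (a : G₀ →* G₁)
    (b : G₀ →* G₂) (ha : Function.Injective a) (hb : Function.Injective b)
    (h₀ : IsVirtuallyCyclic G₀)
    (h₁ : IsResiduallyAmenable G₁) (h₂ : IsResiduallyAmenable G₂)
    (ra : IsVirtualRetract a.range) (rb : IsVirtualRetract b.range) :
    IsResiduallyAmenable (AmalgamatedProduct a b) := by
  obtain ⟨c, hc⟩ := h₀
  obtain ⟨K₁, hK₁, haK, r₁, hr₁⟩ := ra
  obtain ⟨K₂, hK₂, hbK, r₂, hr₂⟩ := rb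
  let ea := MonoidHom.ofInjective ha
  let eb := MonoidHom.ofInjective hb
  exact ofRA (Pool.Agent.R632.VRC.two_ra a b (QuotientGroup.mk' (relators a b))
    (QuotientGroup.mk'_surjective _) (QuotientGroup.ker_mk' _) (toRA h₁) (toRA h₂) c hc K₁ hK₁
    (fun h => haK ⟨h, rfl⟩) (ea.symm.toMonoidHom.comp r₁) (fun h => by
      show ea.symm (r₁ ⟨a h, _⟩) = h
      rw [MulEquiv.symm_apply_eq]
      exact hr₁ ⟨a h, h, rfl⟩) K₂ hK₂
    (fun h => hbK ⟨h, rfl⟩) (eb.symm.toMonoidHom.comp r₂) (fun h => by
      show eb.symm (r₂ ⟨b h, _⟩) = h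
      rw [MulEquiv.symm_apply_eq]
      exact hr₂ ⟨b h, h, rfl⟩))

end Pool.Agent.Results.MP_71554c_al.ResidualAmenability
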